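import Pool.Agent.SHA.StmtsB

/-!
# Squad SHA, part B, row B_CW2 (MP_65fb70_co)
-/

set_option autoImplicit false

namespace Pool.Agent.SHA.H46

open Pool.Agent.Helper18_Helly

universe u

open Classical in
/-- the exchange of sums on one side -/
theorem side_w {U : Type u} (P T : Finset U) (D : U → Set U) (y : U → ℝ) (s : ℕ)
    (hy : ∀ p ∈ P, 0 ≤ y p ∧ y p ≤ 1)
    (h : ∀ p ∈ P, (T.filter (fun t => t ∈ D p)).card ≤ s) :
    ∑ t ∈ T, (∑ p ∈ P.filter (fun p => t ∈ D p), y p + (if t ∈ P then 1 - y t else 0)) ≤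
      ((s : ℝ) - 1) * ∑ p ∈ P, y p + P.card := by
  rw [Finset.sum_add_distrib]
  have h1 : ∑ t ∈ T, ∑ p ∈ P.filter (fun p => t ∈ D p), y p ≤ (s : ℝ) * ∑ p ∈ P, y p := by
    have e1 : ∑ t ∈ T, ∑ p ∈ P.filter (fun p => t ∈ D p), y p =
        ∑ t ∈ T, ∑ p ∈ P, (if t ∈ D p then y p else 0) :=
      Finset.sum_congr rfl fun t _ => Finset.sum_filter _ _
    rw [e1, Finset.sum_comm, Finset.mul_sum]
    refine Finset.sum_le_sum fun p hp => ?_
    rw [← Finset.sum_filter, Finset.sum_const, nsmul_eq_mul]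
    exact mul_le_mul_of_nonneg_right (by exact_mod_cast h p hp) (hy p hp).1
  have h2 : ∑ t ∈ T, (if t ∈ P then 1 - y t else 0) ≤ (P.card : ℝ) - ∑ p ∈ P, y p := by
    rw [← Finset.sum_filter]
    have e2 : ∑ t ∈ T.filter (fun t => t ∈ P), (1 - y t) ≤ ∑ t ∈ P, (1 - y t) := by
      refine Finset.sum_le_sum_of_subset_of_nonneg ?_ ?_
      · intro t ht
        exact (Finset.mem_filter.1 ht).2
      · intro t ht _
        have := (hy t ht).2
        linarith
    refine e2.trans (le_of_eq ?_)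
    rw [Finset.sum_sub_distrib, Finset.sum_const, nsmul_eq_mul, mul_one]
  nlinarith [h1, h2]

open Classical in
theorem filt_card {U : Type u} {X : Set U} {T : Finset U} {s : ℕ} {D : Set U} (hD : D ⊆ X)
    (h : (((T : Set U) ∩ X) \ (X \ D)).encard ≤ s) :
    (T.filter (fun t => t ∈ D)).card ≤ s := by
  have h2 : ((T.filter (fun t => t ∈ D) : Finset U) : Set U) ⊆ ((T : Set U) ∩ X) \ (X \ D) := by
    intro t ht
    rw [Finset.mem_coe, Finset.mem_filter] at ht
    exact ⟨⟨ht.1, hD ht.2⟩, fun h3 => h3.2 ht.2⟩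
  have h3 := (Set.encard_le_encard h2).trans h
  rw [Set.encard_coe_eq_coe_finsetCard] at h3
  exact_mod_cast h3

theorem cw2 : CW2Stmt.{u} := by
  classical
  intro U P P' A B X₁ X₂ J J' y y' s b hs hPP' hPA hPB hP'A hP'B hAB hX₁ hX₂ hJ hJ' hy hy' hwA hwB hb
  have hP₁ : (P : Set U) ⊆ X₁ := by rw [hX₁]; exact Set.subset_union_left
  have hP₂ : (P' : Set U) ⊆ X₂ := by rw [hX₂]; exact Set.subset_union_left
  have hZ : ∀ (P : Finset U) (A B X : Set U) (J : U → Set U), Disjoint (P : Set U) A →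
      Disjoint (P : Set U) B → (P : Set U) ⊆ X → (∀ p ∈ P, J p ⊆ A) →
      ∀ p ∈ (P : Set U), (X \ insert p (J p ∪ B)) ⊆ X ∧ p ∉ (X \ insert p (J p ∪ B)) ∧
        ∀ p' ∈ (P : Set U), p' ≠ p → p' ∈ (X \ insert p (J p ∪ B)) := by
    intro P A B X J h1 h2 h3 h4 p hp
    refine ⟨Set.sdiff_subset, fun h => h.2 (Set.mem_insert _ _), ?_⟩
    intro p' hp' hne
    refine ⟨h3 hp', ?_⟩
    rintro (h | h | h)
    · exact hne h
    · exact Set.disjoint_left.1 h1 hp' (h4 p (Finset.mem_coe.1 hp) h)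
    · exact Set.disjoint_left.1 h2 hp' h
  refine helly_le (empty_mem_alignedSum (avoid_aligned _ hP₁).empty_mem
    (avoid_aligned _ hP₂).empty_mem) ?_
  intro T₀ hT hfin hcore
  obtain ⟨T, rfl⟩ : ∃ T : Finset U, T₀ = (T : Set U) := ⟨hfin.toFinset, by simp⟩
  have h1 := (core_sum_avoid_iff hP₁ hP₂ (hZ P A B X₁ J hPA hPB hP₁ hJ)
    (hZ P' B A X₂ J' hP'B hP'A hP₂ hJ') hs hT).1 hcore
  obtain ⟨D, hD⟩ : ∃ D : U → Set U, D = fun p => insert p (J p ∪ B) := ⟨_, rfl⟩
  obtain ⟨D', hD'⟩ : ∃ D : U → Set U, D = fun p => insert p (J' p ∪ A) := ⟨_, rfl⟩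
  have hDX : ∀ p ∈ P, D p ⊆ X₁ := by
    intro p hp t ht
    rw [hX₁]
    rw [hD] at ht
    rcases ht with ht | ht | ht
    · left; rw [ht]; exact hp
    · right; left; exact hJ p hp ht
    · right; right; exact ht
  have hDX' : ∀ p ∈ P', D' p ⊆ X₂ := by
    intro p hp t ht
    rw [hX₂]
    rw [hD'] at ht
    rcases ht with ht | ht | ht
    · left; rw [ht]; exact hp
    · right; left; exact hJ' p hp ht
    · right; right; exact ht
  have hA : ∀ p ∈ P, (T.filter (fun t => t ∈ D p)).card ≤ s := by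
    intro p hp
    refine filt_card (hDX p hp) ?_
    rw [hD]
    rcases h1 p (Or.inl (hP₁ hp)) with h | h
    · exact h.2 hp
    · exfalso
      have h2 := h.1
      rw [hX₂] at h2
      rcases h2 with h2 | h2 | h2
      · exact Set.disjoint_left.1 hPP' hp h2
      · exact Set.disjoint_left.1 hPB hp h2
      · exact Set.disjoint_left.1 hPA hp h2
  have hB : ∀ p ∈ P', (T.filter (fun t => t ∈ D' p)).card ≤ s := by
    intro p hp
    refine filt_card (hDX' p hp) ?_
    rw [hD']
    rcases h1 p (Or.inr (hP₂ hp)) with h | h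
    · exfalso
      have h2 := h.1
      rw [hX₁] at h2
      rcases h2 with h2 | h2 | h2
      · exact Set.disjoint_left.1 hPP' h2 hp
      · exact Set.disjoint_left.1 hP'A hp h2
      · exact Set.disjoint_left.1 hP'B hp h2
    · exact h.2 hp
  have k1 := side_w P T D y s hy hA
  have k2 := side_w P' T D' y' s hy' hB
  have k3 : (T.card : ℝ) ≤ ∑ t ∈ T,
      ((∑ p ∈ P.filter (fun p => t ∈ D p), y p + (if t ∈ P then 1 - y t else 0)) +
        (∑ p ∈ P'.filter (fun p => t ∈ D' p), y' p +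
          (if t ∈ P' then 1 - y' t else 0))) := by
    rw [Finset.card_eq_sum_ones, Nat.cast_sum]
    refine Finset.sum_le_sum fun t ht => ?_
    rw [Nat.cast_one]
    have n1 : 0 ≤ ∑ p ∈ P.filter (fun p => t ∈ D p), y p :=
      Finset.sum_nonneg fun p hp => (hy p (Finset.mem_filter.1 hp).1).1
    have n2 : 0 ≤ ∑ p ∈ P'.filter (fun p => t ∈ D' p), y' p :=
      Finset.sum_nonneg fun p hp => (hy' p (Finset.mem_filter.1 hp).1).1
    have n3 : 0 ≤ (if t ∈ P then 1 - y t else 0) := by
      split_ifs with h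
      · have := (hy t h).2
        linarith
      · exact le_rfl
    have n4 : 0 ≤ (if t ∈ P' then 1 - y' t else 0) := by
      split_ifs with h
      · have := (hy' t h).2
        linarith
      · exact le_rfl
    have cP : t ∈ P → (1 : ℝ) ≤ ∑ p ∈ P.filter (fun p => t ∈ D p), y p +
        (if t ∈ P then 1 - y t else 0) := by
      intro h
      rw [if_pos h]
      have := Finset.single_le_sum (s := P.filter (fun p => t ∈ D p))
        (f := fun p => y p) (fun p hp => (hy p (Finset.mem_filter.1 hp).1).1)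
        (Finset.mem_filter.2 ⟨h, by rw [hD]; exact Set.mem_insert _ _⟩ :
          t ∈ P.filter (fun p => t ∈ D p))
      linarith
    have cP' : t ∈ P' → (1 : ℝ) ≤ ∑ p ∈ P'.filter (fun p => t ∈ D' p), y' p +
        (if t ∈ P' then 1 - y' t else 0) := by
      intro h
      rw [if_pos h]
      have := Finset.single_le_sum (s := P'.filter (fun p => t ∈ D' p))
        (f := fun p => y' p) (fun p hp => (hy' p (Finset.mem_filter.1 hp).1).1)
        (Finset.mem_filter.2 ⟨h, by rw [hD']; exact Set.mem_insert _ _⟩ :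
          t ∈ P'.filter (fun p => t ∈ D' p))
      linarith
    have cA : t ∈ A → (1 : ℝ) ≤ ∑ p ∈ P.filter (fun p => t ∈ D p), y p +
        ∑ p ∈ P'.filter (fun p => t ∈ D' p), y' p := by
      intro h
      refine (hwA t h).trans (add_le_add ?_ ?_)
      · refine Finset.sum_le_sum_of_subset_of_nonneg ?_ ?_
        · intro p hp
          rw [Finset.mem_filter] at hp ⊢
          exact ⟨hp.1, by rw [hD]; exact Or.inr (Or.inl hp.2)⟩
        · intro p hp _
          exact (hy p (Finset.mem_filter.1 hp).1).1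
      · rw [Finset.filter_true_of_mem (fun p _ => by rw [hD']; exact Or.inr (Or.inr h))]
    have cB : t ∈ B → (1 : ℝ) ≤ ∑ p ∈ P.filter (fun p => t ∈ D p), y p +
        ∑ p ∈ P'.filter (fun p => t ∈ D' p), y' p := by
      intro h
      rw [add_comm]
      refine (hwB t h).trans (add_le_add ?_ ?_)
      · refine Finset.sum_le_sum_of_subset_of_nonneg ?_ ?_
        · intro p hp
          rw [Finset.mem_filter] at hp ⊢
          exact ⟨hp.1, by rw [hD']; exact Or.inr (Or.inl hp.2)⟩
        · intro p hp _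
          exact (hy' p (Finset.mem_filter.1 hp).1).1
      · rw [Finset.filter_true_of_mem (fun p _ => by rw [hD]; exact Or.inr (Or.inr h))]
    rcases hT (Finset.mem_coe.2 ht) with h | h
    · rw [hX₁] at h
      rcases h with h | h | h
      · linarith [cP h]
      · linarith [cA h]
      · linarith [cB h]
    · rw [hX₂] at h
      rcases h with h | h | h
      · linarith [cP' h]
      · linarith [cB h]
      · linarith [cA h]
  rw [Finset.sum_add_distrib] at k3
  have k4 : (T.card : ℝ) < b + 1 := by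
    refine lt_of_le_of_lt (k3.trans (add_le_add k1 k2)) ?_
    nlinarith [hb]
  have k5 : T.card < b + 1 := by exact_mod_cast k4
  rw [Set.encard_coe_eq_coe_finsetCard]
  exact_mod_cast Nat.lt_succ_iff.1 k5

end Pool.Agent.SHA.H46
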